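import Pool.Agent.Helper12.GM.DimRed

/-!
# Markov-Bernstein inequality on the Hamming cube: influential coordinates

For every real `p ≥ 2` there is `δ > 0` such that for all `n`, `d`, every real
`f = ∑ c_S x^S` of degree at most `d` on the cube and every set `B` of coordinates which contains
all `i` whose influence `∑_{S ∋ i} c_S^2` exceeds `δ^d ‖f‖_2^2`,
`‖Δf‖_p ≤ 7 d ‖f‖_p + ‖Δ_B f‖_p`, `Δ_B f = ∑ |S ∩ B| c_S x^S`, and
`‖Δf‖_p ≤ (7 d + #B) ‖f‖_p`; and if, for some `d` and `C ≥ 0`, `‖Δg‖_p ≤ C d ‖g‖_p` for all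
`g` of degree at most `d` on cubes of dimension at most `d δ^(-d)`, then
`‖Δf‖_p ≤ (C + 7) d ‖f‖_p` for all `f` of degree at most `d` on cubes of any dimension.
-/

set_option autoImplicit false

theorem Pool.Agent.Results.MP_ec81d5_an.InfluentialCoordinates.result
    (p : ℝ) (hp : 2 ≤ p) : ∃ δ : ℝ, 0 < δ ∧
    (∀ n d : ℕ, ∀ c : Finset (Fin n) → ℝ,
      (∀ S : Finset (Fin n), d < S.card → c S = 0) →
      ∀ B : Finset (Fin n),
      (∀ i, i ∉ B → ∑ S : Finset (Fin n) with i ∈ S, c S ^ 2 ≤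
        δ ^ d * ∑ S : Finset (Fin n), c S ^ 2) →
      (∑ x : Fin n → Bool,
          |∑ S : Finset (Fin n), (S.card : ℝ) * c S *
              ∏ i ∈ S, (if x i then (1 : ℝ) else -1)| ^ p) ^ (1 / p)
        ≤ 7 * (d : ℝ) *
          (∑ x : Fin n → Bool,
            |∑ S : Finset (Fin n), c S *
                ∏ i ∈ S, (if x i then (1 : ℝ) else -1)| ^ p) ^ (1 / p) +
          (∑ x : Fin n → Bool,
            |∑ S : Finset (Fin n), ((S ∩ B).card : ℝ) * c S *
                ∏ i ∈ S, (if x i then (1 : ℝ) else -1)| ^ p) ^ (1 / p) ∧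
      (∑ x : Fin n → Bool,
          |∑ S : Finset (Fin n), (S.card : ℝ) * c S *
              ∏ i ∈ S, (if x i then (1 : ℝ) else -1)| ^ p) ^ (1 / p)
        ≤ (7 * (d : ℝ) + (B.card : ℝ)) *
          (∑ x : Fin n → Bool,
            |∑ S : Finset (Fin n), c S *
                ∏ i ∈ S, (if x i then (1 : ℝ) else -1)| ^ p) ^ (1 / p)) ∧
    ∀ (d : ℕ) (C : ℝ), 0 ≤ C →
      (∀ (m : ℕ) (g : Finset (Fin m) → ℝ), (m : ℝ) * δ ^ d ≤ d →
        (∀ S : Finset (Fin m), d < S.card → g S = 0) →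
        (∑ x : Fin m → Bool,
            |∑ S : Finset (Fin m), (S.card : ℝ) * g S *
                ∏ i ∈ S, (if x i then (1 : ℝ) else -1)| ^ p) ^ (1 / p)
          ≤ C * (d : ℝ) *
            (∑ x : Fin m → Bool,
              |∑ S : Finset (Fin m), g S *
                  ∏ i ∈ S, (if x i then (1 : ℝ) else -1)| ^ p) ^ (1 / p)) →
      ∀ (n : ℕ) (c : Finset (Fin n) → ℝ),
        (∀ S : Finset (Fin n), d < S.card → c S = 0) →
        (∑ x : Fin n → Bool,
            |∑ S : Finset (Fin n), (S.card : ℝ) * c S *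
                ∏ i ∈ S, (if x i then (1 : ℝ) else -1)| ^ p) ^ (1 / p)
          ≤ (C + 7) * (d : ℝ) *
            (∑ x : Fin n → Bool,
              |∑ S : Finset (Fin n), c S *
                  ∏ i ∈ S, (if x i then (1 : ℝ) else -1)| ^ p) ^ (1 / p) :=
  Pool.Agent.Helper12.GM.result_C hp
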