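import Mathlib
import Pool.Agent.Helper91.MB.Core

/-!
A Markov-Bernstein inequality on the Hamming cube which is linear in the degree up to the logarithm
of the Lyapunov ratio of the function.

Idea: for the test function `h` the polynomial `ρ ↦ E h T_ρ f` is bounded on `[0,1]` by
`‖h‖_q' ‖f‖_q` (contractivity of the noise semigroup) and its coefficients have absolute sum at
most `‖h‖_2 ‖f‖_2` (Parseval). A Markov inequality for such polynomials at the end point `1` costs
only `d (1 + log)` of the quotient. The test function is cut into exponential pieces and each piece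
is estimated with the better one of the exponents `p0`, `p`, `p1`.
-/

open Finset

namespace Pool.Agent.Results.MP_ec81d5_an.LyapunovRatio

open Pool.Agent.Helper91.MB

/-- The first inequality in terms of `fn`, `lap`. -/
lemma part_one {p0 p p1 : ℝ} (h1 : 1 < p0) (h2 : p0 < p) (h3 : p < p1) (h4 : p0 ≤ 2) (h5 : 2 ≤ p1) :
    ∃ C : ℝ, 0 < C ∧ ∀ n d : ℕ, ∀ c : Finset (Fin n) → ℝ,
      (∀ S : Finset (Fin n), d < S.card → c S = 0) →
      ∑ x, |lap c x| ^ p ≤
        (C * d * (1 + Real.log ((∑ x, |fn c x| ^ p0) ^ ((p1 - p) / (p1 - p0)) *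
          (∑ x, |fn c x| ^ p1) ^ ((p - p0) / (p1 - p0)) / ∑ x, |fn c x| ^ p))) ^ p *
        ∑ x, |fn c x| ^ p := by
  obtain ⟨C, hC, hmain⟩ := core h1 h2 h3 h4 h5
  have hp : 1 < p := h1.trans h2
  have hpp : 0 < p := by linarith
  have hp00 : 0 < p0 := by linarith
  have hp10 : 0 < p1 := by linarith
  have hd01 : 0 < p1 - p0 := by linarith
  refine ⟨C, hC, ?_⟩
  intro n d c hc
  by_cases hf : ∃ x, fn c x ≠ 0
  swap
  · -- the zero function
    push Not at hf
    have hpar := parseval_real c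
    have h0 : ∑ x, (fn c x) ^ 2 = 0 := by
      apply sum_eq_zero
      intro x _
      rw [hf x]; ring
    rw [h0] at hpar
    have h6 : ∑ S, (c S) ^ 2 = 0 := by
      have : (2 : ℝ) ^ n ≠ 0 := by positivity
      have h7 := hpar.symm
      rcases mul_eq_zero.1 h7 with h8 | h8
      · exact absurd h8 this
      · exact h8
    have hcz : ∀ S, c S = 0 := by
      intro S
      have h7 := (sum_eq_zero_iff_of_nonneg (fun S _ => sq_nonneg (c S))).1 h6 S (mem_univ S)
      exact pow_eq_zero_iff (two_ne_zero) |>.1 h7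
    have h8 : ∀ x, lap c x = 0 := by
      intro x
      unfold lap fn
      apply sum_eq_zero
      intro S _
      show (S.card : ℝ) * c S * rch S x = 0
      rw [hcz S]; ring
    simp only [h8, hf, abs_zero, Real.zero_rpow hpp.ne', sum_const_zero, mul_zero, le_refl]
  · have hM : 0 < ∑ x, |fn c x| ^ p := sum_rpow_pos hf
    have hM0 : 0 < ∑ x, |fn c x| ^ p0 := sum_rpow_pos hf
    have hM1 : 0 < ∑ x, |fn c x| ^ p1 := sum_rpow_pos hf
    set R := (∑ x, |fn c x| ^ p0) ^ ((p1 - p) / (p1 - p0)) *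
          (∑ x, |fn c x| ^ p1) ^ ((p - p0) / (p1 - p0)) / ∑ x, |fn c x| ^ p with hR
    have hlogR : Real.log R = (p1 - p) / (p1 - p0) * Real.log (∑ x, |fn c x| ^ p0) +
        (p - p0) / (p1 - p0) * Real.log (∑ x, |fn c x| ^ p1) - Real.log (∑ x, |fn c x| ^ p) := by
      rw [hR, Real.log_div (by positivity) hM.ne', Real.log_mul (by positivity) (by positivity),
        Real.log_rpow hM0, Real.log_rpow hM1]
    have hR0 : 0 ≤ Real.log R := by
      rw [hlogR]
      have := lyapunov hf hp00 (h2.trans h3) h2.le h3.le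
      linarith
    have hΛ : Lam p0 p p1 (fn c) = (1 / p) * Real.log R := by
      unfold Lam
      rw [log_N hf, log_N hf, log_N hf, hlogR]
      have e : 1 / p0 - 1 / p1 = (p1 - p0) / (p0 * p1) := by field_simp
      rw [e]
      field_simp
    rcases Nat.eq_zero_or_pos d with hd | hd
    · -- degree zero
      subst hd
      have h8 : ∀ x, lap c x = 0 := by
        intro x
        unfold lap fn
        apply sum_eq_zero
        intro S _
        show (S.card : ℝ) * c S * rch S x = 0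
        rcases Nat.eq_zero_or_pos S.card with h9 | h9
        · rw [h9]; simp
        · rw [hc S h9]; ring
      simp only [h8, abs_zero, Real.zero_rpow hpp.ne', sum_const_zero]
      have : 0 ≤ ∑ x, |fn c x| ^ p := hM.le
      have h10 : 0 ≤ C * ((0 : ℕ) : ℝ) * (1 + Real.log R) := by simp
      positivity
    · have hmn := hmain n d hd c hc hf
      have h6 : N p (lap c) ≤ C * d * (1 + Real.log R) * N p (fn c) := by
        refine hmn.trans ?_
        apply mul_le_mul_of_nonneg_right _ (N_nonneg _ _)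
        apply mul_le_mul_of_nonneg_left _ (by positivity)
        rw [hΛ]
        have : 1 / p * Real.log R ≤ 1 * Real.log R := by
          apply mul_le_mul_of_nonneg_right _ hR0
          rw [div_le_one hpp]; exact hp.le
        linarith
      have hNp : ∀ g : (Fin n → Bool) → ℝ, N p g ^ p = ∑ x, |g x| ^ p := by
        intro g
        unfold N
        rw [← Real.rpow_mul (sum_nonneg fun x _ => by positivity), one_div,
          inv_mul_cancel₀ hpp.ne', Real.rpow_one]
      rw [← hNp, ← hNp, ← Real.mul_rpow (by positivity) (N_nonneg _ _)]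
      exact Real.rpow_le_rpow (N_nonneg _ _) h6 hpp.le

/-- The second inequality in terms of `fn`, `lap`. -/
lemma part_two {p : ℝ} (hp : 1 < p) :
    ∃ C : ℝ, 0 < C ∧ ∀ n d : ℕ, ∀ c : Finset (Fin n) → ℝ,
      (∀ S : Finset (Fin n), d < S.card → c S = 0) → ∀ a K : ℝ, 0 < a → 1 ≤ K →
      (∀ x, fn c x = 0 ∨ (a ≤ |fn c x| ∧ |fn c x| ≤ K * a)) →
      ∑ x, |lap c x| ^ p ≤ (C * d * (1 + Real.log K)) ^ p * ∑ x, |fn c x| ^ p := by
  set p0 := (1 + min p 2) / 2 with hp0
  set p1 := max p 2 + 1 with hp1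
  have m1 : min p 2 ≤ p := min_le_left _ _
  have m2 : min p 2 ≤ 2 := min_le_right _ _
  have m3 : 1 < min p 2 := lt_min hp (by norm_num)
  have m4 : p ≤ max p 2 := le_max_left _ _
  have m5 : (2 : ℝ) ≤ max p 2 := le_max_right _ _
  have h1 : 1 < p0 := by rw [hp0]; linarith
  have h2 : p0 < p := by rw [hp0]; linarith
  have h3 : p < p1 := by rw [hp1]; linarith
  have h4 : p0 ≤ 2 := by rw [hp0]; linarith
  have h5 : 2 ≤ p1 := by rw [hp1]; linarith
  obtain ⟨C, hC, hmain⟩ := part_one h1 h2 h3 h4 h5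
  have hpp : 0 < p := by linarith
  have hp00 : 0 < p0 := by linarith
  have hp10 : 0 < p1 := by linarith
  have hd01 : 0 < p1 - p0 := by linarith
  refine ⟨C * (1 + (p1 - p)), by nlinarith, ?_⟩
  intro n d c hc a K ha hK hval
  refine (hmain n d c hc).trans ?_
  by_cases hf : ∃ x, fn c x ≠ 0
  swap
  · push Not at hf
    simp [hf, Real.zero_rpow hpp.ne']
  have hM : 0 < ∑ x, |fn c x| ^ p := sum_rpow_pos hf
  have hM0 : 0 < ∑ x, |fn c x| ^ p0 := sum_rpow_pos hf
  have hM1 : 0 < ∑ x, |fn c x| ^ p1 := sum_rpow_pos hf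
  have hlogK : 0 ≤ Real.log K := Real.log_nonneg hK
  have hKa : 0 < K * a := by positivity
  have b0 : ∑ x, |fn c x| ^ p0 ≤ a ^ (p0 - p) * ∑ x, |fn c x| ^ p := by
    rw [mul_sum]
    refine sum_le_sum fun x _ => ?_
    rcases hval x with h | ⟨h6, _⟩
    · rw [h, abs_zero, Real.zero_rpow hp00.ne', Real.zero_rpow hpp.ne', mul_zero]
    · have hpos : 0 < |fn c x| := lt_of_lt_of_le ha h6
      have e : |fn c x| ^ p0 = |fn c x| ^ (p0 - p) * |fn c x| ^ p := by
        rw [← Real.rpow_add hpos]; congr 1; ring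
      rw [e]
      apply mul_le_mul_of_nonneg_right _ (by positivity)
      exact Real.rpow_le_rpow_of_nonpos ha h6 (by linarith)
  have b1 : ∑ x, |fn c x| ^ p1 ≤ (K * a) ^ (p1 - p) * ∑ x, |fn c x| ^ p := by
    rw [mul_sum]
    refine sum_le_sum fun x _ => ?_
    rcases hval x with h | ⟨h6, h7⟩
    · rw [h, abs_zero, Real.zero_rpow hp10.ne', Real.zero_rpow hpp.ne', mul_zero]
    · have hpos : 0 < |fn c x| := lt_of_lt_of_le ha h6
      have e : |fn c x| ^ p1 = |fn c x| ^ (p1 - p) * |fn c x| ^ p := by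
        rw [← Real.rpow_add hpos]; congr 1; ring
      rw [e]
      apply mul_le_mul_of_nonneg_right _ (by positivity)
      exact Real.rpow_le_rpow hpos.le h7 (by linarith)
  have l0 : Real.log (∑ x, |fn c x| ^ p0) ≤ (p0 - p) * Real.log a +
      Real.log (∑ x, |fn c x| ^ p) := by
    have := Real.log_le_log hM0 b0
    rw [Real.log_mul (Real.rpow_pos_of_pos ha _).ne' hM.ne', Real.log_rpow ha] at this
    exact this
  have l1 : Real.log (∑ x, |fn c x| ^ p1) ≤ (p1 - p) * (Real.log K + Real.log a) +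
      Real.log (∑ x, |fn c x| ^ p) := by
    have := Real.log_le_log hM1 b1
    rw [Real.log_mul (Real.rpow_pos_of_pos hKa _).ne' hM.ne', Real.log_rpow hKa,
      Real.log_mul (by positivity) ha.ne'] at this
    exact this
  have hlogR : Real.log ((∑ x, |fn c x| ^ p0) ^ ((p1 - p) / (p1 - p0)) *
          (∑ x, |fn c x| ^ p1) ^ ((p - p0) / (p1 - p0)) / ∑ x, |fn c x| ^ p) =
      (p1 - p) / (p1 - p0) * Real.log (∑ x, |fn c x| ^ p0) +
      (p - p0) / (p1 - p0) * Real.log (∑ x, |fn c x| ^ p1) - Real.log (∑ x, |fn c x| ^ p) := by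
    rw [Real.log_div (by positivity) hM.ne', Real.log_mul (by positivity) (by positivity),
      Real.log_rpow hM0, Real.log_rpow hM1]
  have hR0 : 0 ≤ Real.log ((∑ x, |fn c x| ^ p0) ^ ((p1 - p) / (p1 - p0)) *
          (∑ x, |fn c x| ^ p1) ^ ((p - p0) / (p1 - p0)) / ∑ x, |fn c x| ^ p) := by
    rw [hlogR]
    have := lyapunov hf hp00 (h2.trans h3) h2.le h3.le
    linarith
  have hw0 : 0 ≤ (p1 - p) / (p1 - p0) := div_nonneg (by linarith) hd01.le
  have hw1 : 0 ≤ (p - p0) / (p1 - p0) := div_nonneg (by linarith) hd01.le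
  have hw1' : (p - p0) / (p1 - p0) ≤ 1 := by rw [div_le_one hd01]; linarith
  have hR1 : Real.log ((∑ x, |fn c x| ^ p0) ^ ((p1 - p) / (p1 - p0)) *
          (∑ x, |fn c x| ^ p1) ^ ((p - p0) / (p1 - p0)) / ∑ x, |fn c x| ^ p) ≤
      (p1 - p) * Real.log K := by
    rw [hlogR]
    have q0 := mul_le_mul_of_nonneg_left l0 hw0
    have q1 := mul_le_mul_of_nonneg_left l1 hw1
    have e1 : (p1 - p) / (p1 - p0) * ((p0 - p) * Real.log a + Real.log (∑ x, |fn c x| ^ p)) +
        (p - p0) / (p1 - p0) * ((p1 - p) * (Real.log K + Real.log a) +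
          Real.log (∑ x, |fn c x| ^ p)) =
        (p - p0) / (p1 - p0) * ((p1 - p) * Real.log K) + Real.log (∑ x, |fn c x| ^ p) := by
      field_simp
      ring
    have e2 : (p - p0) / (p1 - p0) * ((p1 - p) * Real.log K) ≤ 1 * ((p1 - p) * Real.log K) := by
      apply mul_le_mul_of_nonneg_right hw1'
      exact mul_nonneg (by linarith) hlogK
    linarith
  apply mul_le_mul_of_nonneg_right _ hM.le
  apply Real.rpow_le_rpow (by positivity) _ hpp.le
  have h6 : 1 + Real.log ((∑ x, |fn c x| ^ p0) ^ ((p1 - p) / (p1 - p0)) *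
          (∑ x, |fn c x| ^ p1) ^ ((p - p0) / (p1 - p0)) / ∑ x, |fn c x| ^ p) ≤
      (1 + (p1 - p)) * (1 + Real.log K) := by
    have : (1 + (p1 - p)) * (1 + Real.log K) = 1 + (p1 - p) * Real.log K + (p1 - p) + Real.log K := by
      ring
    rw [this]
    linarith
  calc C * (d : ℝ) * (1 + Real.log ((∑ x, |fn c x| ^ p0) ^ ((p1 - p) / (p1 - p0)) *
          (∑ x, |fn c x| ^ p1) ^ ((p - p0) / (p1 - p0)) / ∑ x, |fn c x| ^ p))
      ≤ C * (d : ℝ) * ((1 + (p1 - p)) * (1 + Real.log K)) :=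
        mul_le_mul_of_nonneg_left h6 (by positivity)
    _ = _ := by ring

/-- (1) Let `1 < p0 < p < p1` with `p0 ≤ 2 ≤ p1`. There is `C > 0` (depending on the exponents only)
such that for all `n`, `d` and every `f : {-1,1}^n → ℝ` of degree at most `d`,
`‖Δf‖_p ≤ C d (1 + log R) ‖f‖_p`, where `R = (∑|f|^p0)^(1-λ) (∑|f|^p1)^λ / ∑|f|^p`,
`λ = (p-p0)/(p1-p0)`, is the Lyapunov ratio of `f` (`R ≥ 1`).
(2) For every `p > 1` there is `C > 0` such that for all `n`, `d`, `a > 0`, `K ≥ 1` and every `f` of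
degree at most `d` all whose nonzero values satisfy `a ≤ |f(x)| ≤ K a`,
`‖Δf‖_p ≤ C d (1 + log K) ‖f‖_p`. -/
theorem result :
    (∀ p0 p p1 : ℝ, 1 < p0 → p0 < p → p < p1 → p0 ≤ 2 → 2 ≤ p1 →
      ∃ C : ℝ, 0 < C ∧ ∀ n d : ℕ, ∀ c : Finset (Fin n) → ℝ,
        (∀ S : Finset (Fin n), d < S.card → c S = 0) →
        (∑ x : Fin n → Bool, |∑ S : Finset (Fin n), (S.card : ℝ) * c S *
              ∏ i ∈ S, (if x i then (1 : ℝ) else -1)| ^ p) ≤
          (C * d * (1 + Real.log (
            (∑ x : Fin n → Bool, |∑ S : Finset (Fin n), c S *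
              ∏ i ∈ S, (if x i then (1 : ℝ) else -1)| ^ p0) ^ ((p1 - p) / (p1 - p0)) *
            (∑ x : Fin n → Bool, |∑ S : Finset (Fin n), c S *
              ∏ i ∈ S, (if x i then (1 : ℝ) else -1)| ^ p1) ^ ((p - p0) / (p1 - p0)) /
            ∑ x : Fin n → Bool, |∑ S : Finset (Fin n), c S *
              ∏ i ∈ S, (if x i then (1 : ℝ) else -1)| ^ p))) ^ p *
          ∑ x : Fin n → Bool, |∑ S : Finset (Fin n), c S *
              ∏ i ∈ S, (if x i then (1 : ℝ) else -1)| ^ p) ∧
    (∀ p : ℝ, 1 < p →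
      ∃ C : ℝ, 0 < C ∧ ∀ n d : ℕ, ∀ c : Finset (Fin n) → ℝ,
        (∀ S : Finset (Fin n), d < S.card → c S = 0) → ∀ a K : ℝ, 0 < a → 1 ≤ K →
        (∀ x : Fin n → Bool, (∑ S : Finset (Fin n), c S *
              ∏ i ∈ S, (if x i then (1 : ℝ) else -1)) = 0 ∨
          (a ≤ |∑ S : Finset (Fin n), c S * ∏ i ∈ S, (if x i then (1 : ℝ) else -1)| ∧
            |∑ S : Finset (Fin n), c S * ∏ i ∈ S, (if x i then (1 : ℝ) else -1)| ≤ K * a)) →
        (∑ x : Fin n → Bool, |∑ S : Finset (Fin n), (S.card : ℝ) * c S *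
              ∏ i ∈ S, (if x i then (1 : ℝ) else -1)| ^ p) ≤
          (C * d * (1 + Real.log K)) ^ p *
          ∑ x : Fin n → Bool, |∑ S : Finset (Fin n), c S *
              ∏ i ∈ S, (if x i then (1 : ℝ) else -1)| ^ p) :=
  ⟨fun _ _ _ h1 h2 h3 h4 h5 => part_one h1 h2 h3 h4 h5, fun _ hp => part_two hp⟩

end Pool.Agent.Results.MP_ec81d5_an.LyapunovRatio
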