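import Mathlib
import Pool.Agent.Helper54.MB.Main

/-!
The Markov-Bernstein inequality on the Hamming cube for the exponents `p = 2m`, `m` odd.

The proof bounds the numerical radius of the Laplacian on the functions of degree at most `d` in
complex `L^p`: after symmetrization it is controlled by the Dirichlet form of `|f|^(m-1) f`, which
for odd `m` is a polynomial of degree at most `m d` on the cube. A differential inequality then
bounds `exp(zΔ)`, and Cauchy's estimate bounds `Δ`.
-/

open Finset

namespace Pool.Agent.Results.MP_ec81d5_an.OddHalfExponents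

open Pool.Agent.Helper54.MB

/-- Let `m` be odd and `p = 2m`. For all `n`, `d` and every real `f = ∑_S c_S x^S` on `{-1,1}^n` of
degree at most `d`, with `Δ f = ∑_S |S| c_S x^S`,
`∑_x |Δ f(x)|^p ≤ (4 e m d)^p ∑_x |f(x)|^p`, that is `‖Δ f‖_p ≤ 2 e p d ‖f‖_p`. -/
theorem result (m : ℕ) (hm : Odd m) (n d : ℕ) (c : Finset (Fin n) → ℝ)
    (hc : ∀ S : Finset (Fin n), d < S.card → c S = 0) :
    (∑ x : Fin n → Bool,
        |∑ S : Finset (Fin n), (S.card : ℝ) * c S *
            ∏ i ∈ S, (if x i then (1 : ℝ) else -1)| ^ (2 * m))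
      ≤ (4 * Real.exp 1 * m * d) ^ (2 * m) *
        ∑ x : Fin n → Bool,
          |∑ S : Finset (Fin n), c S *
              ∏ i ∈ S, (if x i then (1 : ℝ) else -1)| ^ (2 * m) := by
  have h := complex_bound (d := d) hm (fun S => (c S : ℂ)) (fun S hS => by simp [hc S hS])
  have hch : ∀ (S : Finset (Fin n)) (x : Fin n → Bool),
      ch S x = ((∏ i ∈ S, (if x i then (1 : ℝ) else -1) : ℝ) : ℂ) := by
    intro S x
    unfold ch
    rw [Complex.ofReal_prod]
    refine prod_congr rfl fun i _ => ?_
    cases x i <;> simp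
  have h1 : ∀ x : Fin n → Bool, ‖∑ S : Finset (Fin n), (S.card : ℂ) * (c S : ℂ) * ch S x‖ =
      |∑ S : Finset (Fin n), (S.card : ℝ) * c S *
            ∏ i ∈ S, (if x i then (1 : ℝ) else -1)| := by
    intro x
    rw [← Real.norm_eq_abs, ← Complex.norm_real]
    congr 1
    rw [Complex.ofReal_sum]
    refine sum_congr rfl fun S _ => ?_
    rw [hch]
    push_cast
    rfl
  have h2 : ∀ x : Fin n → Bool, ‖∑ S : Finset (Fin n), (c S : ℂ) * ch S x‖ =
      |∑ S : Finset (Fin n), c S * ∏ i ∈ S, (if x i then (1 : ℝ) else -1)| := by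
    intro x
    rw [← Real.norm_eq_abs, ← Complex.norm_real]
    congr 1
    rw [Complex.ofReal_sum]
    refine sum_congr rfl fun S _ => ?_
    rw [hch]
    push_cast
    rfl
  simp only [h1, h2] at h
  exact h

end Pool.Agent.Results.MP_ec81d5_an.OddHalfExponents
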