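import Mathlib
import Pool.Agent.Helper27.MB.Main

/-!
The Markov-Bernstein inequality on the Hamming cube for all real exponents, with the power
`1 + (2/π) arcsin(|p - 2k|/p)` of the degree, for every integer `k ≥ 1` with `k = 1` or
`k + 1 ≤ p`.

Proof. For `g = |f|^(k-1) f` (`k` odd) or `g = |f|^(k-2) f^2` (`k` even), a polynomial of degree
`k d` on the cube, the numerical range of the Laplacian at the complex function `f` in `L^p` (for
even `k` its imaginary part) is bounded by the real part of the numerical range at `g` in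
`L^(p/k)`. That one is bounded by the contractivity of the complex noise operators in a lens with
angle `π - 2 arcsin|1 - 2k/p|` at `1`, and Markov's inequality at the corner of the lens. The
resolvent and Cauchy's estimate (`k` odd), the group `exp(i t Δ)` and a kernel on the roots of unity
(`k` even) give the bound on the Laplacian.
-/

open Finset

namespace Pool.Agent.Results.MP_ec81d5_an.RealExponents

open Pool.Agent.Helper54.MB Pool.Agent.Helper27.MB

/-- Transfer to real functions. -/
lemma real_form {p K : ℝ} (hp : 0 < p) (hK : 0 ≤ K) {n : ℕ} (c : Finset (Fin n) → ℝ)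
    (h : nr p (lap (Fc fun S => (c S : ℂ))) ≤ K * nr p (Fc fun S => (c S : ℂ))) :
    (∑ x : Fin n → Bool,
        |∑ S : Finset (Fin n), (S.card : ℝ) * c S *
            ∏ i ∈ S, (if x i then (1 : ℝ) else -1)| ^ p)
      ≤ K ^ p * ∑ x : Fin n → Bool,
          |∑ S : Finset (Fin n), c S * ∏ i ∈ S, (if x i then (1 : ℝ) else -1)| ^ p := by
  have h0 := Real.rpow_le_rpow (nr_nonneg _ _) h hp.le
  rw [Real.mul_rpow hK (nr_nonneg _ _), nr_rpow hp, nr_rpow hp] at h0
  have hch : ∀ (S : Finset (Fin n)) (x : Fin n → Bool),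
      ch S x = ((∏ i ∈ S, (if x i then (1 : ℝ) else -1) : ℝ) : ℂ) := by
    intro S x
    unfold ch
    rw [Complex.ofReal_prod]
    refine prod_congr rfl fun i _ => ?_
    cases x i <;> simp
  have h1 : S p (lap (Fc fun S => (c S : ℂ))) = ∑ x : Fin n → Bool,
        |∑ S : Finset (Fin n), (S.card : ℝ) * c S *
            ∏ i ∈ S, (if x i then (1 : ℝ) else -1)| ^ p := by
    rw [lap_Fc]
    unfold Pool.Agent.Helper27.MB.S Fc
    refine sum_congr rfl fun x _ => ?_
    rw [← Real.norm_eq_abs, ← Complex.norm_real]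
    congr 2
    rw [Complex.ofReal_sum]
    refine sum_congr rfl fun S _ => ?_
    rw [hch]
    push_cast
    rfl
  have h2 : S p (Fc fun S => (c S : ℂ)) = ∑ x : Fin n → Bool,
        |∑ S : Finset (Fin n), c S * ∏ i ∈ S, (if x i then (1 : ℝ) else -1)| ^ p := by
    unfold Pool.Agent.Helper27.MB.S Fc
    refine sum_congr rfl fun x _ => ?_
    rw [← Real.norm_eq_abs, ← Complex.norm_real]
    congr 2
    rw [Complex.ofReal_sum]
    refine sum_congr rfl fun S _ => ?_
    rw [hch]
    push_cast
    rfl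
  rw [h1, h2] at h0
  exact h0

/-- Let `p > 1` be real and let `k ≥ 1` be an integer with `k = 1` or `k + 1 ≤ p`. There is
`C > 0` such that for all `n`, `d` and every real `f = ∑_S c_S x^S` on `{-1,1}^n` of degree at most
`d`, with `Δ f = ∑_S |S| c_S x^S`,
`‖Δ f‖_p ≤ C d^(1 + (2/π) arcsin(|p - 2k|/p)) L ‖f‖_p`, `L = log(d+1)` for even `k` and `L = 1` for
odd `k`. -/
theorem result (p : ℝ) (k : ℕ) (hp : 1 < p) (hk : 1 ≤ k) (hkp : k = 1 ∨ (k : ℝ) + 1 ≤ p) :
    ∃ C : ℝ, 0 < C ∧ ∀ (n d : ℕ) (c : Finset (Fin n) → ℝ),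
      (∀ S : Finset (Fin n), d < S.card → c S = 0) →
      (∑ x : Fin n → Bool,
        |∑ S : Finset (Fin n), (S.card : ℝ) * c S *
            ∏ i ∈ S, (if x i then (1 : ℝ) else -1)| ^ p)
      ≤ (C * (d : ℝ) ^ (1 + 2 / Real.pi * Real.arcsin (|p - 2 * k| / p)) *
            (if Even k then Real.log (d + 1) else 1)) ^ p *
        ∑ x : Fin n → Bool,
          |∑ S : Finset (Fin n), c S * ∏ i ∈ S, (if x i then (1 : ℝ) else -1)| ^ p := by
  have hp0 : 0 < p := by linarith
  have hgen : ∃ C : ℝ, 0 < C ∧ ∀ (n d : ℕ) (c : Finset (Fin n) → ℂ),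
      (∀ A, d < A.card → c A = 0) →
      nr p (lap (Fc c)) ≤
        C * (d : ℝ) ^ (1 + 2 / Real.pi * Real.arcsin (|p - 2 * k| / p)) *
          (if Even k then Real.log (d + 1) else 1) * nr p (Fc c) := by
    rcases hkp with h | h
    · subst h
      obtain ⟨C, hC, h⟩ := main_one p hp
      refine ⟨C, hC, ?_⟩
      intro n d c hc
      have h1 := h n d c hc
      have h2 : ¬ Even 1 := by decide
      rw [if_neg h2, mul_one, Nat.cast_one, mul_one]
      exact h1
    · exact main_k p k hk h
  obtain ⟨C, hC, h⟩ := hgen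
  refine ⟨C, hC, ?_⟩
  intro n d c hc
  apply real_form hp0
  · have h1 : 0 ≤ (d : ℝ) ^ (1 + 2 / Real.pi * Real.arcsin (|p - 2 * k| / p)) :=
      Real.rpow_nonneg (Nat.cast_nonneg _) _
    have h2 : 0 ≤ (if Even k then Real.log ((d : ℝ) + 1) else 1) := by
      split_ifs
      · apply Real.log_nonneg
        have : (0 : ℝ) ≤ d := Nat.cast_nonneg _
        linarith
      · exact zero_le_one
    positivity
  · exact h n d (fun S => (c S : ℂ)) (fun S hS => by simp [hc S hS])

end Pool.Agent.Results.MP_ec81d5_an.RealExponents
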